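import Pool.Agent.D0H96.CC.Sv
import Pool.Agent.D0H61.CP.Stm

/-! The upper bound sieve in mean over `α`, for sparse sets (variant of `Pool.Agent.D0H96.CC.t_SV`). -/

set_option autoImplicit false
set_option maxHeartbeats 400000

namespace Pool.Agent.D0H41.CP

open Filter Topology MeasureTheory Finset
open Pool.Agent.D0H61.CC Pool.Agent.D0H61.CP
open Pool.Agent.D0H96.CC

/-- the exponential sums are small in mean, for all nonzero frequencies -/
theorem EE_small2 {κ γ R CL X : ℝ} (hγ : 0 < γ) (G : Finset ℕ)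
    (hLO : ∀ u v q : ℝ, 1 ≤ q → (1 / q ≤ |v| ∨ (v = 0 ∧ 1 / q ≤ |u|)) →
      ∫ α in Set.Icc (1 / R) R, ‖∑ n ∈ G, ex (n * (u * α + v * α ^ κ))‖ ≤ CL * q * X)
    (D q q' : ℕ) (hD : 1 ≤ D)
    (hq : 1 ≤ q) (hq' : 1 ≤ q') (hqD : q ≤ D ^ 2) (hqD' : q' ≤ D ^ 2) (p : ℤ × ℤ) (hp : p ≠ (0, 0)) :
    ∫ α in Set.Icc (1 / R) R, ‖EE κ γ q q' G p α‖ ≤
      CL * ((1 + 1 / γ) * (D : ℝ) ^ 2) * X := by
  have hq0 : (0 : ℝ) < q := by exact_mod_cast hq
  have hq'0 : (0 : ℝ) < q' := by exact_mod_cast hq'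
  have hD0 : (1 : ℝ) ≤ D := by exact_mod_cast hD
  have hD2 : (1 : ℝ) ≤ (D : ℝ) ^ 2 := one_le_pow₀ hD0
  have hqr : (q : ℝ) ≤ (D : ℝ) ^ 2 := by exact_mod_cast hqD
  have hq'r : (q' : ℝ) ≤ (D : ℝ) ^ 2 := by exact_mod_cast hqD'
  have hg0 : 0 < 1 / γ := by positivity
  have hπ := Real.pi_gt_three
  have hQ : 1 ≤ (1 + 1 / γ) * (D : ℝ) ^ 2 := by nlinarith
  refine hLO (2 * Real.pi * p.1 / q) (2 * Real.pi * γ * p.2 / q') _ hQ ?_
  by_cases h2 : p.2 = 0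
  · have h1 : p.1 ≠ 0 := fun h1 => hp (Prod.ext h1 h2)
    right
    refine ⟨by simp [h2], ?_⟩
    have h3 : (1 : ℝ) ≤ |(p.1 : ℝ)| := by
      rw [← Int.cast_abs]
      exact_mod_cast Int.one_le_abs h1
    rw [abs_div, abs_mul, abs_of_pos (show (0 : ℝ) < 2 * Real.pi by positivity), abs_of_pos hq0,
      div_le_div_iff₀ (by positivity) hq0]
    have h4 : (q : ℝ) ≤ (1 + 1 / γ) * (D : ℝ) ^ 2 := by nlinarith
    have h5 : 1 ≤ 2 * Real.pi * |(p.1 : ℝ)| := by nlinarith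
    nlinarith
  · left
    have h3 : (1 : ℝ) ≤ |(p.2 : ℝ)| := by
      rw [← Int.cast_abs]
      exact_mod_cast Int.one_le_abs h2
    rw [abs_div, abs_mul, abs_of_pos (show (0 : ℝ) < 2 * Real.pi * γ by positivity), abs_of_pos hq'0,
      div_le_div_iff₀ (by positivity) hq'0]
    have h4 : γ * ((1 + 1 / γ) * (D : ℝ) ^ 2) = (γ + 1) * (D : ℝ) ^ 2 := by
      field_simp
    have h5 : (1 : ℝ) ≤ 2 * Real.pi * |(p.2 : ℝ)| := by nlinarith
    have h6 : (q' : ℝ) ≤ γ * ((1 + 1 / γ) * (D : ℝ) ^ 2) := by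
      rw [h4]
      nlinarith
    calc 1 * (q' : ℝ) ≤ γ * ((1 + 1 / γ) * (D : ℝ) ^ 2) := by linarith
      _ ≤ (2 * Real.pi * |(p.2 : ℝ)|) * (γ * ((1 + 1 / γ) * (D : ℝ) ^ 2)) := by
          have : 0 ≤ γ * ((1 + 1 / γ) * (D : ℝ) ^ 2) := by positivity
          nlinarith
      _ = 2 * Real.pi * γ * |(p.2 : ℝ)| * ((1 + 1 / γ) * (D : ℝ) ^ 2) := by ring

/-- SV2: the upper bound sieve for sparse sets -/
theorem t_SV2 (hLO : S_LO2) (hH : S_HAT) : S_SV2 := by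
  intro θ hθ κ γ a b R hκ hκ1 hγ hR
  obtain ⟨CL, hCL, hLO'⟩ := hLO κ R hκ hκ1 hR
  have hR0 : 0 < R := by linarith
  -- a lower bound for `α ^ κ`
  obtain ⟨s, hs, hs1⟩ : ∃ s : ℝ, 0 < s ∧ ∀ α ∈ Set.Icc (1 / R) R, s ≤ α ∧ s ≤ γ * α ^ κ := by
    have h1 : ∃ t : ℝ, 0 < t ∧ ∀ α ∈ Set.Icc (1 / R) R, t ≤ α ^ κ := by
      rcases le_total 0 κ with h | h
      · refine ⟨(1 / R) ^ κ, by positivity, fun α hα => Real.rpow_le_rpow (by positivity) hα.1 h⟩
      · refine ⟨R ^ κ, by positivity, fun α hα => ?_⟩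
        have h0 : 0 < α := lt_of_lt_of_le (by positivity) hα.1
        exact Real.rpow_le_rpow_of_nonpos h0 hα.2 h
    obtain ⟨t, ht, ht1⟩ := h1
    refine ⟨min (1 / R) (γ * t), by positivity, fun α hα => ⟨(min_le_left _ _).trans hα.1, ?_⟩⟩
    exact (min_le_right _ _).trans (mul_le_mul_of_nonneg_left (ht1 α hα) hγ.le)
  -- the exponents
  obtain ⟨τ, hτ, hτθ, hτ1⟩ : ∃ τ : ℝ, 0 < τ ∧ τ ≤ θ ∧ τ ≤ 1 :=
    ⟨min θ 1, by positivity, min_le_left _ _, min_le_right _ _⟩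
  refine ⟨160000 / τ ^ 2, by positivity, τ / 10, by positivity, by linarith, ?_⟩
  -- asymptotics
  set C1 : ℝ := 100 * (CL * (1 + 1 / γ)) with hC1
  have hC1p : 0 < C1 := by positivity
  have e1 : ∀ᶠ N : ℕ in atTop, C1 * (N : ℝ) ^ (-(19 * τ / 100)) ≤ (N : ℝ) ^ (-(τ / 10)) := by
    have h1 : Tendsto (fun N : ℕ => (N : ℝ) ^ (9 * τ / 100)) atTop atTop :=
      (tendsto_rpow_atTop (by positivity)).comp tendsto_natCast_atTop_atTop
    filter_upwards [h1.eventually_ge_atTop C1, eventually_ge_atTop 1] with N h2 h3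
    have hN : (0 : ℝ) < N := by exact_mod_cast h3
    calc C1 * (N : ℝ) ^ (-(19 * τ / 100)) ≤ (N : ℝ) ^ (9 * τ / 100) * (N : ℝ) ^ (-(19 * τ / 100)) :=
          mul_le_mul_of_nonneg_right h2 (by positivity)
      _ = (N : ℝ) ^ (-(τ / 10)) := by
          rw [← Real.rpow_add hN]
          congr 1
          ring
  have e2 : ∀ᶠ N : ℕ in atTop, (N : ℝ) ^ (τ / 100) + |(a : ℝ)| + |(b : ℝ)| + 2 ≤ s * N := by
    have h1 : Tendsto (fun N : ℕ => s * (N : ℝ) ^ (1 - τ / 100)) atTop atTop :=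
      ((tendsto_rpow_atTop (by linarith)).comp tendsto_natCast_atTop_atTop).const_mul_atTop hs
    filter_upwards [h1.eventually_ge_atTop (1 + |(a : ℝ)| + |(b : ℝ)| + 2), eventually_ge_atTop 1] with N h2 h3
    have hN : (0 : ℝ) < N := by exact_mod_cast h3
    have hN1 : (1 : ℝ) ≤ N := by exact_mod_cast h3
    have h4 : 1 ≤ (N : ℝ) ^ (τ / 100) := Real.one_le_rpow hN1 (by positivity)
    have h5 : s * (N : ℝ) = s * (N : ℝ) ^ (1 - τ / 100) * (N : ℝ) ^ (τ / 100) := by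
      rw [mul_assoc, ← Real.rpow_add hN]
      norm_num
    have h6 : 0 ≤ |(a : ℝ)| + |(b : ℝ)| + 2 := by positivity
    rw [h5]
    calc (N : ℝ) ^ (τ / 100) + |(a : ℝ)| + |(b : ℝ)| + 2 ≤
          (1 + |(a : ℝ)| + |(b : ℝ)| + 2) * (N : ℝ) ^ (τ / 100) := by nlinarith
      _ ≤ _ := mul_le_mul_of_nonneg_right h2 (by positivity)
  have e3 : ∀ᶠ N : ℕ in atTop, (100 : ℝ) ≤ (N : ℝ) ^ (τ / 100) :=
    ((tendsto_rpow_atTop (by positivity)).comp tendsto_natCast_atTop_atTop).eventually_ge_atTop 100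
  filter_upwards [e1, e2, e3, eventually_ge_atTop 2] with N f1 f2 f3 hN2 G hG hGc B hB hBR
  have hN1 : (1 : ℝ) ≤ N := by
    have : 1 ≤ N := by omega
    exact_mod_cast this
  have hN0 : (0 : ℝ) < N := by linarith
  set T : ℝ := (N : ℝ) ^ (τ / 100) with hT
  set D : ℕ := ⌊T⌋₊ with hDdef
  have hT0 : 0 ≤ T := by positivity
  have hDT : (D : ℝ) ≤ T := Nat.floor_le hT0
  have hDT2 : T < D + 1 := Nat.lt_floor_add_one T
  have hD2 : 2 ≤ D := by
    have : (2 : ℝ) ≤ D := by linarith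
    exact_mod_cast this
  obtain ⟨l, l1, l2, -, -, l5, l6⟩ := Pool.Agent.H376R2.MR.sel_weights D hD2
  have hs' := fun (q q' : ℕ) (hq : 1 ≤ q) (hq' : 1 ≤ q') (hqD : q ≤ D ^ 2) (hqD' : q' ≤ D ^ 2) =>
    EE_small2 (κ := κ) hγ G (hLO' G) D q q' (by omega) hq hq' hqD hqD'
  have hfl : ∀ (y : ℝ) (n : ℕ) (z : ℤ), s ≤ y → N < n → |(z : ℝ)| ≤ |(a : ℝ)| + |(b : ℝ)| →
      (D : ℤ) < ⌊y * n⌋ + z := by
    intro y n z hy hn hz
    have h1 : (N : ℝ) ≤ n := by exact_mod_cast hn.le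
    have h2 : s * N ≤ y * n := mul_le_mul hy h1 hN0.le (hs.le.trans hy)
    have h3 := Int.lt_floor_add_one (y * n)
    have h4 := neg_abs_le (z : ℝ)
    have h5 : ((D : ℤ) : ℝ) < ((⌊y * n⌋ + z : ℤ) : ℝ) := by
      push_cast
      linarith
    exact_mod_cast h5
  have hmain := sieve (κ := κ) (γ := γ) (a := a) (b := b) hR hH l l1 l2 D (by omega) G hBR
    (M := CL * ((1 + 1 / γ) * (D : ℝ) ^ 2) * (G.card : ℝ) ^ (3 / 4 : ℝ)) (by positivity) hs'
    (fun n hn α hα => hfl α n a (hs1 α (hBR hα)).1 (hG n hn).1 (by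
      have := abs_nonneg (b : ℝ)
      linarith))
    (fun n hn α hα => hfl (γ * α ^ κ) n b (hs1 α (hBR hα)).2 (hG n hn).1 (by
      have := abs_nonneg (a : ℝ)
      linarith)) hB
  refine hmain.trans (add_le_add ?_ ?_)
  · -- the main term
    have hlogN : 0 < Real.log N := Real.log_pos (by exact_mod_cast (by omega : 1 < N))
    have hlogD : τ * Real.log N / 200 ≤ Real.log D := by
      have h1 : Real.log T = τ * Real.log N / 100 := by
        rw [hT, Real.log_rpow hN0]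
        ring
      have hD0 : (0 : ℝ) < D := by
        have : 0 < D := by omega
        exact_mod_cast this
      have h2 : T ≤ D ^ 2 := by nlinarith
      have h3 : Real.log T ≤ Real.log ((D : ℝ) ^ 2) := Real.log_le_log (by linarith) h2
      rw [Real.log_pow, h1] at h3
      push_cast at h3
      linarith
    have h4 : mvD l D ≤ 200 / (τ * Real.log N) := by
      refine l6.trans ?_
      have h0 : 0 < τ * Real.log N := by positivity
      rw [div_le_div_iff₀ (by linarith [div_pos h0 (show (0 : ℝ) < 200 by norm_num)]) h0]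
      linarith
    have h5 : 0 ≤ mvD l D := l5
    have h6 : mvD l D ^ 2 ≤ (200 / (τ * Real.log N)) ^ 2 := pow_le_pow_left₀ h5 h4 2
    have h7 : 4 * mvD l D ^ 2 ≤ 160000 / τ ^ 2 / Real.log N ^ 2 := by
      have h8 : (200 / (τ * Real.log N)) ^ 2 = 40000 / τ ^ 2 / Real.log N ^ 2 := by
        rw [div_pow, mul_pow, ← div_div]
        norm_num
      rw [h8] at h6
      calc 4 * mvD l D ^ 2 ≤ 4 * (40000 / τ ^ 2 / Real.log N ^ 2) := by linarith
        _ = 160000 / τ ^ 2 / Real.log N ^ 2 := by ring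
    calc 4 * mvD l D ^ 2 * G.card * (volume B).toReal ≤
          160000 / τ ^ 2 / Real.log N ^ 2 * G.card * (volume B).toReal := by gcongr
      _ = 160000 / τ ^ 2 * G.card / Real.log N ^ 2 * (volume B).toReal := by ring
  · -- the error term
    have hgN : (N : ℝ) ^ τ ≤ G.card :=
      (Real.rpow_le_rpow_of_exponent_le hN1 hτθ).trans hGc
    have hg0 : (0 : ℝ) < G.card := lt_of_lt_of_le (by positivity) hgN
    have h1 : (D : ℝ) ^ 6 ≤ T ^ 6 := pow_le_pow_left₀ (Nat.cast_nonneg _) hDT 6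
    have h2 : T ^ 6 = (N : ℝ) ^ (6 * τ / 100) := by
      rw [hT, ← Real.rpow_natCast, ← Real.rpow_mul hN0.le]
      congr 1
      push_cast
      ring
    have h3 : (G.card : ℝ) ^ (3 / 4 : ℝ) ≤ G.card * (N : ℝ) ^ (-(τ / 4)) := by
      have h4 : (G.card : ℝ) ^ (3 / 4 : ℝ) = G.card * (G.card : ℝ) ^ (-(1 / 4) : ℝ) := by
        nth_rewrite 2 [← Real.rpow_one (G.card : ℝ)]
        rw [← Real.rpow_add hg0]
        norm_num
      have h5 : (G.card : ℝ) ^ (-(1 / 4) : ℝ) ≤ ((N : ℝ) ^ τ) ^ (-(1 / 4) : ℝ) :=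
        Real.rpow_le_rpow_of_nonpos (by positivity) hgN (by norm_num)
      rw [← Real.rpow_mul hN0.le] at h5
      rw [h4]
      refine mul_le_mul_of_nonneg_left (h5.trans (le_of_eq ?_)) hg0.le
      congr 1
      ring
    have h6 : (N : ℝ) ^ (6 * τ / 100) * (N : ℝ) ^ (-(τ / 4)) = (N : ℝ) ^ (-(19 * τ / 100)) := by
      rw [← Real.rpow_add hN0]
      congr 1
      ring
    calc 100 * (D : ℝ) ^ 4 * (CL * ((1 + 1 / γ) * (D : ℝ) ^ 2) * (G.card : ℝ) ^ (3 / 4 : ℝ)) =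
          C1 * ((D : ℝ) ^ 6 * (G.card : ℝ) ^ (3 / 4 : ℝ)) := by
          rw [hC1]
          ring
      _ ≤ C1 * ((N : ℝ) ^ (6 * τ / 100) * (G.card * (N : ℝ) ^ (-(τ / 4)))) := by
          rw [← h2]
          gcongr
      _ = G.card * (C1 * ((N : ℝ) ^ (6 * τ / 100) * (N : ℝ) ^ (-(τ / 4)))) := by ring
      _ = G.card * (C1 * (N : ℝ) ^ (-(19 * τ / 100))) := by rw [h6]
      _ ≤ G.card * (N : ℝ) ^ (-(τ / 10)) := mul_le_mul_of_nonneg_left f1 hg0.le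

end Pool.Agent.D0H41.CP
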